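import Mathlib

set_option autoImplicit false

namespace Pool.Agent.Results.MP_e70d00_co.Disproof

open Finset

/-- The `t`-coset `T_{a,b} = {σ : σ (a i) = b i for all i}`. -/
def coset {n t : ℕ} (a b : Fin t ↪ Fin n) : Finset (Equiv.Perm (Fin n)) :=
  univ.filter (fun σ => ∀ i, σ (a i) = b i)

/-- The characteristic function of `A`, as a vector of the Euclidean space of functions on `S_n`. -/
noncomputable def ind {n : ℕ} (A : Finset (Equiv.Perm (Fin n))) :
    EuclideanSpace ℝ (Equiv.Perm (Fin n)) :=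
  WithLp.toLp 2 (fun σ => if σ ∈ A then 1 else 0)

/-- `U_t`, the span of the characteristic functions of all `t`-cosets. -/
noncomputable def U (n t : ℕ) : Submodule ℝ (EuclideanSpace ℝ (Equiv.Perm (Fin n))) :=
  Submodule.span ℝ {f | ∃ a b : Fin t ↪ Fin n, f = ind (coset a b)}

lemma pair_mem {n : ℕ} (a : Fin 2 ↪ Fin n) (g : Fin n → Fin n → ℝ) :
    (WithLp.toLp 2 (fun σ : Equiv.Perm (Fin n) => g (σ (a 0)) (σ (a 1))) :
      EuclideanSpace ℝ (Equiv.Perm (Fin n))) ∈ U n 2 := by
  have : (WithLp.toLp 2 (fun σ : Equiv.Perm (Fin n) => g (σ (a 0)) (σ (a 1))) :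
      EuclideanSpace ℝ (Equiv.Perm (Fin n))) =
      ∑ b : Fin 2 ↪ Fin n, g (b 0) (b 1) • ind (coset a b) := by
    ext σ
    simp only [WithLp.ofLp_sum, WithLp.ofLp_smul, Finset.sum_apply, Pi.smul_apply, ind,
      smul_eq_mul]
    rw [Finset.sum_eq_single (a.trans σ.toEmbedding)]
    · simp [coset]
    · intro b _ hb
      have : σ ∉ coset a b := by
        intro h
        apply hb
        ext i
        have := (mem_filter.mp h).2 i
        simp [← this]
      simp [this]
    · simp
  rw [this]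
  exact Submodule.sum_mem _ fun b _ =>
    Submodule.smul_mem _ _ (Submodule.subset_span ⟨a, b, rfl⟩)

def emb {n : ℕ} (x y : Fin n) (h : x ≠ y) : Fin 2 ↪ Fin n :=
  ⟨![x, y], by
    intro i j hij
    fin_cases i <;> fin_cases j <;> simp_all [eq_comm]⟩

section
variable {m : ℕ}

def χ (x : Fin (2 * m + 4)) : Bool := decide (x.val < m + 2)

def p0 : Fin (2 * m + 4) := ⟨0, by omega⟩
def p1 : Fin (2 * m + 4) := ⟨1, by omega⟩
def p2 : Fin (2 * m + 4) := ⟨2, by omega⟩

lemma p01 : (p0 : Fin (2 * m + 4)) ≠ p1 := by simp [p0, p1]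
lemma p12 : (p1 : Fin (2 * m + 4)) ≠ p2 := by simp [p1, p2]
lemma p02 : (p0 : Fin (2 * m + 4)) ≠ p2 := by simp [p0, p2]

def AA (m : ℕ) : Finset (Equiv.Perm (Fin (2 * m + 4))) :=
  univ.filter (fun σ => χ (σ p0) = χ (σ p1) ∧ χ (σ p1) = χ (σ p2))

lemma AA_mem : ind (AA m) ∈ U (2 * m + 4) 2 := by
  let g : Fin (2 * m + 4) → Fin (2 * m + 4) → ℝ :=
    fun u v => (if χ u = χ v then 1 / 2 else 0) - 1 / 6
  have h := Submodule.add_mem _ (Submodule.add_mem _ (pair_mem (emb p0 p1 p01) g)
    (pair_mem (emb p1 p2 p12) g)) (pair_mem (emb p0 p2 p02) g)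
  convert h using 1
  ext σ
  simp only [ind, AA, mem_filter, mem_univ, true_and, WithLp.ofLp_add, Pi.add_apply, g, emb,
    Function.Embedding.coeFn_mk, Matrix.cons_val_zero, Matrix.cons_val_one]
  cases χ (σ p0) <;> cases χ (σ p1) <;> cases χ (σ p2) <;> norm_num

lemma card_col (c : Bool) : m + 2 ≤ (univ.filter (fun x : Fin (2 * m + 4) => χ x ≠ c)).card := by
  cases c
  · have : (univ : Finset (Fin (m + 2))).card ≤
        (univ.filter (fun x : Fin (2 * m + 4) => χ x ≠ false)).card := by
      apply card_le_card_of_injOn (fun i => ⟨i.val, by omega⟩)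
      · intro i _; simp [χ]
      · intro i _ j _ h; ext; simpa using h
    simpa using this
  · have : (univ : Finset (Fin (m + 2))).card ≤
        (univ.filter (fun x : Fin (2 * m + 4) => χ x ≠ true)).card := by
      apply card_le_card_of_injOn (fun i => ⟨i.val + (m + 2), by omega⟩)
      · intro i _; simp [χ]
      · intro i _ j _ h; ext; simpa using h
    simpa using this

lemma count (T : Finset ((Fin 2 ↪ Fin (2 * m + 4)) × (Fin 2 ↪ Fin (2 * m + 4)))) :
    (AA m ∩ T.biUnion (fun x => coset x.1 x.2)).card * m ≤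
      (T.biUnion (fun x => coset x.1 x.2) \ AA m).card * (3 * (2 * m + 4)) := by
  classical
  apply card_mul_le_card_mul
    (fun σ τ => ∃ i ∈ ({p0, p1, p2} : Finset (Fin (2 * m + 4))), ∃ j, τ = σ * Equiv.swap i j)
  · intro σ hσ
    obtain ⟨hA, hC⟩ := mem_inter.mp hσ
    obtain ⟨⟨a, b⟩, hT, hab⟩ := mem_biUnion.mp hC
    have hA' := (mem_filter.mp hA).2
    have hab' := (mem_filter.mp hab).2
    obtain ⟨i, hi, hi0, hi1⟩ : ∃ i ∈ ({p0, p1, p2} : Finset (Fin (2 * m + 4))),
        i ≠ a 0 ∧ i ≠ a 1 := by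
      by_contra hc
      push Not at hc
      have h0 := hc p0 (by simp)
      have h1 := hc p1 (by simp)
      have h2 := hc p2 (by simp)
      have := @p01 m; have := @p12 m; have := @p02 m
      grind
    have hci : χ (σ i) = χ (σ p1) := by
      simp only [mem_insert, mem_singleton] at hi
      rcases hi with rfl | rfl | rfl
      · exact hA'.1
      · rfl
      · exact hA'.2.symm
    let Js := ((univ.filter (fun j : Fin (2 * m + 4) => χ (σ j) ≠ χ (σ p1))).erase (a 0)).erase (a 1)
    have hJ : m ≤ Js.card := by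
      have h1 : (univ.filter (fun x : Fin (2 * m + 4) => χ x ≠ χ (σ p1))).card =
          (univ.filter (fun j : Fin (2 * m + 4) => χ (σ j) ≠ χ (σ p1))).card := by
        symm
        apply card_bij (fun j _ => σ j)
        · intro j hj; simpa using hj
        · intro j _ k _ h; exact σ.injective h
        · intro x hx; exact ⟨σ.symm x, by simpa using hx, by simp⟩
      have h2 := card_col (m := m) (χ (σ p1))
      have h3 := pred_card_le_card_erase
        (s := univ.filter (fun j : Fin (2 * m + 4) => χ (σ j) ≠ χ (σ p1))) (a := a 0)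
      have h4 := pred_card_le_card_erase
        (s := (univ.filter (fun j : Fin (2 * m + 4) => χ (σ j) ≠ χ (σ p1))).erase (a 0)) (a := a 1)
      simp only [Js]; omega
    refine hJ.trans (card_le_card_of_injOn (fun j => σ * Equiv.swap i j) ?_ ?_)
    · intro j hj
      simp only [Js, coe_erase, Set.mem_diff, coe_filter, mem_univ, true_and, Set.mem_setOf_eq,
        Set.mem_singleton_iff] at hj
      obtain ⟨⟨hj, hj0⟩, hj1⟩ := hj
      simp only [coe_bipartiteAbove, mem_sdiff, Set.mem_setOf_eq]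
      refine ⟨⟨mem_biUnion.mpr ⟨(a, b), hT, ?_⟩, ?_⟩, i, hi, j, rfl⟩
      · simp only [coset, mem_filter, mem_univ, true_and, Equiv.Perm.coe_mul, Function.comp]
        intro k
        rw [Equiv.swap_apply_of_ne_of_ne, hab' k]
        · fin_cases k; exacts [hi0.symm, hi1.symm]
        · fin_cases k; exacts [Ne.symm hj0, Ne.symm hj1]
      · simp only [AA, mem_filter, mem_univ, true_and, Equiv.Perm.coe_mul, Function.comp]
        have j0 : p0 ≠ j := by rintro rfl; exact hj hA'.1
        have j1 : p1 ≠ j := by rintro rfl; exact hj rfl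
        have j2 : p2 ≠ j := by rintro rfl; exact hj hA'.2.symm
        simp only [mem_insert, mem_singleton] at hi
        rcases hi with rfl | rfl | rfl
        · rw [Equiv.swap_apply_left, Equiv.swap_apply_of_ne_of_ne p01.symm j1]
          exact fun h => hj h.1
        · rw [Equiv.swap_apply_left, Equiv.swap_apply_of_ne_of_ne p01 j0]
          exact fun h => hj (h.1.symm.trans hA'.1)
        · rw [Equiv.swap_apply_left, Equiv.swap_apply_of_ne_of_ne p12 j1]
          exact fun h => hj h.2.symm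
    · intro j _ k _ h
      have := congrArg (fun τ : Equiv.Perm (Fin (2 * m + 4)) => τ i) h
      simpa using this
  · intro τ _
    have : ((AA m ∩ T.biUnion (fun x => coset x.1 x.2)).bipartiteBelow
        (fun σ τ => ∃ i ∈ ({p0, p1, p2} : Finset (Fin (2 * m + 4))), ∃ j, τ = σ * Equiv.swap i j) τ) ⊆
        ((({p0, p1, p2} : Finset (Fin (2 * m + 4))) ×ˢ (univ : Finset (Fin (2 * m + 4)))).image
          (fun x => τ * Equiv.swap x.1 x.2)) := by
      intro σ hσ
      obtain ⟨-, i, hi, j, rfl⟩ := (mem_bipartiteBelow _).mp hσ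
      exact mem_image.mpr ⟨(i, j), by simpa using hi, by simp [mul_assoc]⟩
    refine (card_le_card this).trans (card_image_le.trans ?_)
    rw [card_product, card_univ, Fintype.card_fin]
    exact Nat.mul_le_mul_right _ card_le_three

lemma AA_ne (h : 1 ≤ m) : 0 < (AA m).card := by
  apply card_pos.mpr
  refine ⟨1, ?_⟩
  simp only [AA, mem_filter, mem_univ, true_and, Equiv.Perm.coe_one, id, χ, p0, p1, p2]
  constructor <;> simp <;> omega

end

/-- The stability conjecture for low-degree Boolean functions on `S_n` is false (already for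
`t = 2`). -/
theorem result : ¬ ∃ C₀ : ℝ, ∀ (n t : ℕ) (ε : ℝ) (A : Finset (Equiv.Perm (Fin n))),
    t ≤ n → 0 < ε →
    (1 / (n.factorial : ℝ)) * ∑ σ, (ind A σ - (U n t).starProjection (ind A) σ) ^ 2 ≤
      ε * ((1 / (n.factorial : ℝ)) * ∑ σ, ind A σ) →
    ∃ T : Finset ((Fin t ↪ Fin n) × (Fin t ↪ Fin n)),
      ((symmDiff A (T.biUnion (fun x => coset x.1 x.2))).card : ℝ) ≤
        C₀ * (ε + 1 / n) * A.card := by
  rintro ⟨C₀, H⟩
  obtain ⟨m, hm⟩ := exists_nat_gt (max 4 (24 * |C₀|))
  have hm4 : (4 : ℝ) < m := lt_of_le_of_lt (le_max_left _ _) hm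
  have hmC : 24 * |C₀| < m := lt_of_le_of_lt (le_max_right _ _) hm
  have hm4' : 4 < m := by exact_mod_cast hm4
  obtain ⟨T, hT⟩ := H (2 * m + 4) 2 (1 / m) (AA m) (by omega) (by positivity) (by
    rw [(Submodule.starProjection_eq_self_iff).mpr AA_mem]
    simp only [sub_self, ne_eq, OfNat.ofNat_ne_zero, not_false_eq_true, zero_pow, sum_const_zero,
      mul_zero]
    have : 0 ≤ ∑ σ, ind (AA m) σ := sum_nonneg fun σ _ => by
      simp only [ind]; split_ifs <;> norm_num
    positivity)
  have hc := count T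
  set C := T.biUnion (fun x => coset x.1 x.2)
  have h1 : (symmDiff (AA m) C).card = (AA m \ C).card + (C \ AA m).card := by
    rw [symmDiff_def, sup_eq_union, card_union_of_disjoint disjoint_sdiff_sdiff]
  have h2 : (AA m \ C).card + (AA m ∩ C).card = (AA m).card := card_sdiff_add_card_inter _ _
  have h3 : (AA m ∩ C).card ≤ 9 * (C \ AA m).card := by
    have : (AA m ∩ C).card * m ≤ (9 * (C \ AA m).card) * m := by
      refine hc.trans ?_
      rw [mul_comm 9, mul_assoc]
      exact Nat.mul_le_mul_left _ (by omega)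
    exact Nat.le_of_mul_le_mul_right this (by omega)
  have h4 : (AA m).card ≤ 9 * (symmDiff (AA m) C).card := by omega
  have h5 : ((AA m).card : ℝ) ≤ 9 * (symmDiff (AA m) C).card := by exact_mod_cast h4
  have h6 : (0 : ℝ) < (AA m).card := by exact_mod_cast AA_ne (by omega)
  have h7 : C₀ * (1 / (m : ℝ) + 1 / ((2 * m + 4 : ℕ) : ℝ)) < 1 / 9 := by
    have hm0 : (0 : ℝ) < m := by linarith
    have g1 : 1 / ((2 * m + 4 : ℕ) : ℝ) ≤ 1 / (m : ℝ) := by
      apply one_div_le_one_div_of_le hm0; push_cast; linarith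
    have g2 : (0 : ℝ) ≤ 1 / ((2 * m + 4 : ℕ) : ℝ) := by positivity
    have g3 : |C₀| * (1 / (m : ℝ)) < 1 / 24 := by
      rw [mul_one_div, div_lt_iff₀ hm0]; linarith
    have g4 : (0 : ℝ) ≤ 1 / (m : ℝ) := by positivity
    calc C₀ * (1 / (m : ℝ) + 1 / ((2 * m + 4 : ℕ) : ℝ))
        ≤ |C₀| * (1 / (m : ℝ) + 1 / (m : ℝ)) := by
          apply mul_le_mul (le_abs_self _) (by linarith) (by linarith) (abs_nonneg _)
      _ < 1 / 9 := by linarith
  nlinarith

end Pool.Agent.Results.MP_e70d00_co.Disproof
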